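import Pool.Agent.Q60.LO.Comb
import Pool.Agent.Q60.PL.LWM

/-!
# Weights and monodromy on products of different varieties
-/

set_option autoImplicit false

open Module

namespace Pool.Agent.Q60.LO

open Pool.Agent.Y143 Pool.Agent.Y163.MW Pool.Agent.Y163.MW.Coh Pool.Agent.H914 Pool.Agent.Q60.PL

universe u v w

/-- the product `X 0 × ... × X n` -/
noncomputable def prods {K : Type u} [Field K] : (n : ℕ) → (Fin (n + 1) → SmVar.{u} K) → SmVar.{u} K
  | 0, X => X 0
  | n + 1, X => (X 0).prod (prods n fun i => X i.succ)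

/-- The number of the Frobenius eigenvalues on the graded pieces `M_r / M_(r - 1)` whose excess is
`r + s`, that is, with defect `s`. -/
noncomputable def defects {Ω : Type w} [Field Ω] [CharZero Ω] (R : Coh.{v, w} Ω) (q : ℕ)
    (M : ℤ → Submodule Ω R.V) (s : ℤ) : ℤ :=
  ∑ᶠ r : ℤ, ((finrank Ω (M r ⊓ R.tot q (r + s) : Submodule Ω R.V) : ℤ) -
    finrank Ω (M (r - 1) ⊓ R.tot q (r + s) : Submodule Ω R.V))

section

variable {Ω : Type w} [Field Ω] [CharZero Ω] {R : Coh.{v, w} Ω} {q : ℕ} {I : Type} [Fintype I]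
  {a c : I → ℤ}

lemma defects_eq (hW : iSupIndep (R.tot q)) (H : R.Adp q a c) {M : ℤ → Submodule Ω R.V}
    (hM : IsMonodromyFiltrationOn ⊤ R.N M) (s : ℤ) :
    defects R q M s = Nat.card {i // c i - a i = s} := by
  classical
  obtain ⟨b, e, h, hs, hb⟩ := H
  have h1 := Pool.Agent.Y68.MW.stD Pool.Agent.Y141.MW.stL Ω R.V R.N I b a e h hs M hM
  have h2 : ∀ r s, finrank Ω (M r ⊓ R.tot q s : Submodule Ω R.V) =
      Nat.card {i // a i ≤ r ∧ c i = s} := by
    intro r s
    rw [h1 r, gr_eq_span hW b c hb s, span_image_inf, finrank_span_image]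
    rfl
  have h3 : ∀ r : ℤ, ((finrank Ω (M r ⊓ R.tot q (r + s) : Submodule Ω R.V) : ℤ) -
      finrank Ω (M (r - 1) ⊓ R.tot q (r + s) : Submodule Ω R.V)) =
      1 * (Nat.card {g : {i // c i - a i = s} // a g.1 = r} : ℤ) := by
    intro r
    have h4 : Nat.card {i // a i ≤ r ∧ c i = r + s} =
        Nat.card {i // a i ≤ r - 1 ∧ c i = r + s} +
        Nat.card {g : {i // c i - a i = s} // a g.1 = r} := by
      have e1 : Nat.card {g : {i // c i - a i = s} // a g.1 = r} =
          Nat.card {i // c i - a i = s ∧ a i = r} :=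
        Nat.card_congr (Equiv.subtypeSubtypeEquivSubtypeInter (fun i => c i - a i = s)
          (fun i => a i = r))
      rw [e1, Nat.card_eq_fintype_card, Nat.card_eq_fintype_card, Nat.card_eq_fintype_card,
        Fintype.card_subtype, Fintype.card_subtype, Fintype.card_subtype,
        ← Finset.card_union_of_disjoint]
      · congr 1
        ext i
        simp only [Finset.mem_filter, Finset.mem_univ, true_and, Finset.mem_union]
        omega
      · rw [Finset.disjoint_filter]
        intro i _ h5 h6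
        omega
    rw [h2, h2, h4]
    push_cast
    ring
  unfold defects
  rw [finsum_congr h3, finsum_card' (fun g : {i // c i - a i = s} => a g.1) (fun _ => 1),
    Finset.sum_const, Nat.card_eq_fintype_card]
  simp

end

section

variable {K : Type u} [Field K] {Ω : Type w} [Field Ω] [CharZero Ω]
  {T : Theory.{u, v, w} K Ω} {q : ℕ}

/-- Adapted bases for the products. -/
theorem adp_prods (hT : T.IsLocal q) (hq : 1 < q) : ∀ (n : ℕ) (X : Fin (n + 1) → SmVar.{u} K)
    (P : Fin (n + 1) → Type) (a c : ∀ j, P j → ℤ), (∀ j, (T.H (X j)).Adp q (a j) (c j)) →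
    (T.H (prods n X)).Adp q (fun g : ∀ j, P j => ∑ j, a j (g j))
      (fun g : ∀ j, P j => ∑ j, c j (g j)) := by
  intro n
  induction n with
  | zero =>
    intro X P a c H
    have H' : (T.H (prods 0 X)).Adp q (a 0) (c 0) := H 0
    have hu : Unique (Fin (0 + 1)) := inferInstanceAs (Unique (Fin 1))
    let E : (∀ j, P j) ≃ P 0 :=
      { toFun := fun g => g 0
        invFun := fun p j => (Subsingleton.elim 0 j : (0 : Fin (0 + 1)) = j) ▸ p
        left_inv := fun g => by
          funext j
          have : (0 : Fin (0 + 1)) = j := Subsingleton.elim 0 j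
          subst this
          rfl
        right_inv := fun p => rfl }
    have h0 : ∀ f : Fin (0 + 1) → ℤ, ∑ j, f j = f 0 := fun f => by
      rw [Fin.sum_univ_succ]
      simp
    refine H'.reindex E.symm _ _ (fun g => ?_) (fun g => ?_)
    · rw [h0]
      rfl
    · rw [h0]
      rfl
  | succ n ih =>
    intro X P a c H
    obtain ⟨κ, hκ⟩ := hT.kunneth (X 0) (prods n fun i => X i.succ)
    have H' : (T.H (prods (n + 1) X)).Adp q
        (fun p : P 0 × (∀ j : Fin (n + 1), P j.succ) => a 0 p.1 + ∑ k, a k.succ (p.2 k))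
        (fun p : P 0 × (∀ j : Fin (n + 1), P j.succ) => c 0 p.1 + ∑ k, c k.succ (p.2 k)) :=
      (H 0).prod (ih (fun i => X i.succ) (fun j => P j.succ) (fun j => a j.succ)
        (fun j => c j.succ) fun j => H j.succ) (by omega) hκ
    refine H'.reindex (Fin.consEquiv P) _ _ (fun g => ?_) (fun g => ?_)
    · rw [Fin.sum_univ_succ]
      rfl
    · rw [Fin.sum_univ_succ]
      rfl

omit [CharZero Ω] in
lemma sum_ct {V : Type v} [AddCommGroup V] [Module Ω V] {gr : ℤ → Submodule Ω V}
    {N : Module.End Ω V} (S : Strings gr N) : ∑ p, S.ct p = 0 :=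
  sum_eq_zero S.ct (ct_sym S)

variable [IsAlgClosed Ω]

/-- If all factors are mw pure, all defects are zero. -/
theorem all_right (hT : T.IsLocal q) (hq : 1 < q) (n : ℕ) (X : Fin (n + 1) → SmVar.{u} K)
    {M : ℤ → Submodule Ω (T.H (prods n X)).V}
    (hM : IsMonodromyFiltrationOn ⊤ (T.H (prods n X)).N M)
    (h : ∀ i m, (T.H (X i)).MWPure q m) :
    defects (T.H (prods n X)) q M 0 = ∏ i, (finrank Ω (T.H (X i)).V : ℤ) := by
  classical
  have hS : ∀ i, Nonempty (Strings ((T.H (X i)).tot q) (T.H (X i)).N) :=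
    fun i => exists_strings hq (hT.coh (X i))
  let S := fun i => Classical.choice (hS i)
  have hA := adp_prods hT hq n X (fun j => (S j).P) (fun j => (S j).ct) (fun j => (S j).wt)
    (fun j => adp_strings (S j))
  rw [defects_eq (indep_tot hq (hT.coh _)) hA hM]
  have h1 : ∀ i (p : (S i).P), (S i).wt p = (S i).ct p := by
    intro i p
    have h2 := (mw_iff hq (hT.coh (X i)) (S i)).1 (h i) p.1
    unfold Strings.wt Strings.ct
    rw [h2]
  have h2 : Nat.card {g : ∀ j, (S j).P // ∑ j, (S j).wt (g j) - ∑ j, (S j).ct (g j) = 0} =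
      Nat.card (∀ j, (S j).P) := by
    refine Nat.card_congr (Equiv.subtypeUnivEquiv fun g => ?_)
    rw [Finset.sum_congr rfl fun j _ => h1 j (g j), sub_self]
  rw [h2, Nat.card_eq_fintype_card, Fintype.card_pi]
  push_cast
  refine Finset.prod_congr rfl fun i _ => ?_
  rw [finrank_eq_card_basis (S i).b]

/-- **The Littlewood–Offord law for products.** -/
theorem lo_law (hT : T.IsLocal q) (hq : 1 < q) (n : ℕ) (X : Fin (n + 1) → SmVar.{u} K)
    {M : ℤ → Submodule Ω (T.H (prods n X)).V}
    (hM : IsMonodromyFiltrationOn ⊤ (T.H (prods n X)).N M) (F : Finset (Fin (n + 1)))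
    (hF : F.Nonempty) (hfail : ∀ i ∈ F, ¬ ∀ m, (T.H (X i)).MWPure q m) {b : ℝ}
    (hb : ∀ i ∈ F, (finrank Ω (T.H (X i)).V : ℝ) ≤ b) (s : ℤ) :
    (defects (T.H (prods n X)) q M s : ℝ) ≤
      √(b / (2 * ((F.card : ℝ) + 1))) * ∏ i, (finrank Ω (T.H (X i)).V : ℝ) := by
  classical
  have hS : ∀ i, Nonempty (Strings ((T.H (X i)).tot q) (T.H (X i)).N) :=
    fun i => exists_strings hq (hT.coh (X i))
  let S := fun i => Classical.choice (hS i)
  have hA := adp_prods hT hq n X (fun j => (S j).P) (fun j => (S j).ct) (fun j => (S j).wt)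
    (fun j => adp_strings (S j))
  rw [defects_eq (indep_tot hq (hT.coh _)) hA hM]
  have hdim : ∀ i, (finrank Ω (T.H (X i)).V : ℝ) = (Fintype.card (S i).P : ℝ) := by
    intro i
    rw [finrank_eq_card_basis (S i).b]
  by_cases hne : ∃ i, IsEmpty (S i).P
  · obtain ⟨i, hi⟩ := hne
    have h1 : IsEmpty {g : ∀ j, (S j).P // ∑ j, (S j).wt (g j) - ∑ j, (S j).ct (g j) = s} :=
      ⟨fun g => hi.elim (g.1 i)⟩
    rw [Nat.card_of_isEmpty]
    simp only [Nat.cast_zero, Int.cast_zero]
    positivity
  push Not at hne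
  have hex : ∀ i, ∃ p p' : (S i).P, i ∈ F →
      (S i).wt p - (S i).ct p + 1 ≤ (S i).wt p' - (S i).ct p' := by
    intro i
    by_cases hi : i ∈ F
    · obtain ⟨p0, hp0⟩ := exists_defect_ne hq (hT.coh (X i)) (S i) (hfail i hi)
      have h0 : ∑ p, ((S i).wt p - (S i).ct p) = 0 := by
        rw [Finset.sum_sub_distrib, sum_ct (S i),
          sum_wt_of_sym (indep_tot hq (hT.coh (X i))) (S i) (finrank_tot_neg hq (hT.coh (X i)))]
        rfl
      rcases lt_or_gt_of_ne hp0 with h1 | h1
      · have h2 : ∃ p ∈ (Finset.univ : Finset (S i).P), 0 < (S i).wt p - (S i).ct p := by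
          by_contra hcon
          push Not at hcon
          have h3 : ∑ p, ((S i).wt p - (S i).ct p) < ∑ _p : (S i).P, 0 :=
            Finset.sum_lt_sum (fun p hp => hcon p hp) ⟨p0, Finset.mem_univ _, h1⟩
          rw [h0, Finset.sum_const_zero] at h3
          exact lt_irrefl _ h3
        obtain ⟨p, -, hp⟩ := h2
        exact ⟨p0, p, fun _ => by omega⟩
      · have h2 : ∃ p ∈ (Finset.univ : Finset (S i).P), (S i).wt p - (S i).ct p < 0 := by
          by_contra hcon
          push Not at hcon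
          have h3 : ∑ _p : (S i).P, 0 < ∑ p, ((S i).wt p - (S i).ct p) :=
            Finset.sum_lt_sum (fun p hp => hcon p hp) ⟨p0, Finset.mem_univ _, h1⟩
          rw [h0, Finset.sum_const_zero] at h3
          exact lt_irrefl _ h3
        obtain ⟨p, -, hp⟩ := h2
        exact ⟨p, p0, fun _ => by omega⟩
    · obtain ⟨p⟩ := hne i
      exact ⟨p, p, fun h => absurd h hi⟩
  choose i0 i1 hi using hex
  have hLO := littlewood_offord F i0 i1 (fun j p => (S j).wt p - (S j).ct p) (b := b) (c := 1)
    le_rfl hi hF (fun j hj => by rw [← hdim]; exact hb j hj) s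
  rw [Finset.prod_congr rfl fun i _ => hdim i]
  refine le_trans (le_of_eq ?_) hLO
  rw [Nat.card_eq_fintype_card, Fintype.card_subtype]
  norm_cast
  congr 1
  ext g
  simp only [Finset.mem_filter, Finset.mem_univ, true_and, tot, Finset.sum_sub_distrib]
  omega

end

end Pool.Agent.Q60.LO
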