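import Mathlib

/-!
# A Littlewood–Offord bound for words over different alphabets
-/

set_option autoImplicit false

open Finset

namespace Pool.Agent.Q60.LO

/-- Sperner's theorem for the subsets of `A`. -/
theorem sperner_on {α : Type} [DecidableEq α] (A : Finset α) (F : Finset (Finset α))
    (hs : ∀ U ∈ F, U ⊆ A) (ha : ∀ U ∈ F, ∀ V ∈ F, U ⊆ V → U = V) :
    F.card ≤ A.card.choose (A.card / 2) := by
  classical
  let f : Finset α → Finset {x // x ∈ A} := fun U => U.subtype (· ∈ A)
  have hf : ∀ U ∈ F, (f U).map (Function.Embedding.subtype _) = U := by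
    intro U hU
    show (U.subtype (· ∈ A)).map (Function.Embedding.subtype _) = U
    rw [Finset.subtype_map, Finset.filter_true_of_mem]
    exact fun x hx => hs U hU hx
  have h1 : (F.image f).card = F.card := by
    apply Finset.card_image_of_injOn
    intro U hU V hV h
    have h' : f U = f V := h
    rw [← hf U hU, ← hf V hV, h']
  rw [← h1]
  have h2 : IsAntichain (· ⊆ ·) (SetLike.coe (F.image f)) := by
    intro X hX Y hY hne hsub
    rw [Finset.coe_image] at hX hY
    obtain ⟨U, hU, rfl⟩ := hX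
    obtain ⟨V, hV, rfl⟩ := hY
    apply hne
    have h3 : U ⊆ V := by
      rw [← hf U hU, ← hf V hV]
      exact Finset.map_subset_map.2 hsub
    rw [ha U hU V hV h3]
  have h3 := h2.sperner
  rwa [Fintype.card_coe] at h3

theorem choose_even (r : ℕ) : (2 * r + 1) * ((2 * r).choose r) ^ 2 ≤ 4 ^ (2 * r) := by
  induction r with
  | zero => simp
  | succ r ih =>
    have h1 : (r + 1) * Nat.centralBinom (r + 1) = 2 * (2 * r + 1) * Nat.centralBinom r :=
      Nat.succ_mul_centralBinom_succ r
    have h2 : (2 * (r + 1)).choose (r + 1) = Nat.centralBinom (r + 1) := rfl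
    have h3 : (2 * r).choose r = Nat.centralBinom r := rfl
    rw [h2]
    rw [h3] at ih
    have h4 : (r + 1) ^ 2 * ((2 * (r + 1) + 1) * Nat.centralBinom (r + 1) ^ 2) ≤
        (r + 1) ^ 2 * 4 ^ (2 * (r + 1)) := by
      calc (r + 1) ^ 2 * ((2 * (r + 1) + 1) * Nat.centralBinom (r + 1) ^ 2)
          = (2 * r + 3) * ((r + 1) * Nat.centralBinom (r + 1)) ^ 2 := by ring
        _ = (2 * r + 3) * (2 * (2 * r + 1) * Nat.centralBinom r) ^ 2 := by rw [h1]
        _ = 4 * ((2 * r + 3) * (2 * r + 1)) * ((2 * r + 1) * Nat.centralBinom r ^ 2) := by ring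
        _ ≤ 4 * ((2 * r + 3) * (2 * r + 1)) * 4 ^ (2 * r) := Nat.mul_le_mul_left _ ih
        _ ≤ 4 * (4 * (r + 1) ^ 2) * 4 ^ (2 * r) := by
            apply Nat.mul_le_mul_right
            apply Nat.mul_le_mul_left
            nlinarith
        _ = (r + 1) ^ 2 * 4 ^ (2 * (r + 1)) := by
            rw [Nat.mul_add, pow_add]
            ring
    exact Nat.le_of_mul_le_mul_left h4 (by positivity)

theorem choose_bound (m : ℕ) : (m + 1) * (m.choose (m / 2)) ^ 2 ≤ 4 ^ m := by
  rcases Nat.even_or_odd m with ⟨r, hr⟩ | ⟨r, hr⟩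
  · have h1 : m = 2 * r := by omega
    subst h1
    have h2 : 2 * r / 2 = r := by omega
    rw [h2]
    exact choose_even r
  · subst hr
    have h2 : (2 * r + 1) / 2 = r := by omega
    rw [h2]
    have h3 := choose_even (r + 1)
    have h4 : (2 * (r + 1)).choose (r + 1) = 2 * (2 * r + 1).choose r := by
      have e1 : 2 * (r + 1) = (2 * r + 1) + 1 := by ring
      rw [e1, Nat.choose_succ_succ, Nat.choose_symm_half]
      ring
    rw [h4] at h3
    have h5 : 4 ^ (2 * (r + 1)) = 4 * 4 ^ (2 * r + 1) := by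
      rw [show 2 * (r + 1) = (2 * r + 1) + 1 by ring, pow_succ]
      ring
    rw [h5] at h3
    have h6 : 4 * ((2 * r + 1 + 1) * ((2 * r + 1).choose r) ^ 2) ≤ 4 * 4 ^ (2 * r + 1) := by
      refine le_trans ?_ h3
      have : (2 * (r + 1) + 1) * (2 * (2 * r + 1).choose r) ^ 2 =
          4 * ((2 * (r + 1) + 1) * ((2 * r + 1).choose r) ^ 2) := by ring
      rw [this]
      apply Nat.mul_le_mul_left
      apply Nat.mul_le_mul_right
      omega
    exact Nat.le_of_mul_le_mul_left h6 (by norm_num)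

theorem choose_real (m : ℕ) : (m.choose (m / 2) : ℝ) ≤ 2 ^ m * √(1 / ((m : ℝ) + 1)) := by
  have h := choose_bound m
  have h' : ((m : ℝ) + 1) * (m.choose (m / 2) : ℝ) ^ 2 ≤ 4 ^ m := by exact_mod_cast h
  have hm : (0 : ℝ) < (m : ℝ) + 1 := by positivity
  have h1 : (m.choose (m / 2) : ℝ) ^ 2 ≤ 4 ^ m * (1 / ((m : ℝ) + 1)) := by
    rw [mul_one_div, le_div_iff₀ hm]
    linarith
  have h2 := Real.sqrt_le_sqrt h1
  rw [Real.sqrt_sq (by positivity), Real.sqrt_mul (by positivity)] at h2
  have h3 : √((4 : ℝ) ^ m) = 2 ^ m := by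
    rw [show (4 : ℝ) = 2 ^ 2 by norm_num, ← pow_mul, mul_comm, pow_mul, Real.sqrt_sq (by positivity)]
  rwa [h3] at h2

section main

variable {n : ℕ} {P : Fin n → Type} [∀ j, Fintype (P j)] [∀ j, DecidableEq (P j)]
  (T : Finset (Fin n)) (i0 i1 : ∀ j, P j)

/-- the active positions of a word -/
def act (g : ∀ j, P j) : Finset (Fin n) := T.filter fun j => g j = i0 j ∨ g j = i1 j

/-- the base word -/
def base (g : ∀ j, P j) : ∀ j, P j := fun j => if j ∈ act T i0 i1 g then i0 j else g j

/-- the positions with the larger letter -/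
def upp (g : ∀ j, P j) : Finset (Fin n) := T.filter fun j => g j = i1 j

/-- the word with given base word and larger letters -/
def wrd (A : Finset (Fin n)) (β : ∀ j, P j) (U : Finset (Fin n)) : ∀ j, P j :=
  fun j => if j ∈ U then i1 j else if j ∈ A then i0 j else β j

omit [∀ j, Fintype (P j)] in
theorem wrd_of (g : ∀ j, P j) :
    wrd i0 i1 (act T i0 i1 g) (base T i0 i1 g) (upp T i1 g) = g := by
  funext j
  unfold wrd upp base
  by_cases h1 : j ∈ T.filter fun j => g j = i1 j
  · rw [if_pos h1]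
    exact ((Finset.mem_filter.1 h1).2).symm
  · rw [if_neg h1]
    by_cases h2 : j ∈ act T i0 i1 g
    · rw [if_pos h2]
      have h3 := Finset.mem_filter.1 h2
      rcases h3.2 with h4 | h4
      · exact h4.symm
      · exact absurd (Finset.mem_filter.2 ⟨h3.1, h4⟩) h1
    · rw [if_neg h2, if_neg h2]

omit [∀ j, Fintype (P j)] in
theorem wrd_spec (hne : ∀ j ∈ T, i0 j ≠ i1 j) (g : ∀ j, P j) {U : Finset (Fin n)}
    (hU : U ⊆ act T i0 i1 g) :
    act T i0 i1 (wrd i0 i1 (act T i0 i1 g) (base T i0 i1 g) U) = act T i0 i1 g ∧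
    base T i0 i1 (wrd i0 i1 (act T i0 i1 g) (base T i0 i1 g) U) = base T i0 i1 g ∧
    upp T i1 (wrd i0 i1 (act T i0 i1 g) (base T i0 i1 g) U) = U := by
  set A := act T i0 i1 g with hA
  set β := base T i0 i1 g with hβ
  have hval1 : ∀ j ∈ U, wrd i0 i1 A β U j = i1 j := fun j hj => by simp [wrd, hj]
  have hval0 : ∀ j ∈ A, j ∉ U → wrd i0 i1 A β U j = i0 j := fun j hj hj' => by
    simp [wrd, hj, hj']
  have hval : ∀ j, j ∉ A → wrd i0 i1 A β U j = g j := fun j hj => by
    have hj' : j ∉ U := fun h => hj (hU h)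
    have : β j = g j := by rw [hβ, base, ← hA, if_neg hj]
    simp [wrd, hj, hj', this]
  have hAT : ∀ j ∈ A, j ∈ T := fun j hj => (Finset.mem_filter.1 hj).1
  have e1 : act T i0 i1 (wrd i0 i1 A β U) = A := by
    ext j
    constructor
    · intro h
      by_contra hj
      have h2 := Finset.mem_filter.1 h
      rw [hval j hj] at h2
      exact hj (Finset.mem_filter.2 h2)
    · intro h
      refine Finset.mem_filter.2 ⟨hAT j h, ?_⟩
      by_cases hj : j ∈ U
      · exact Or.inr (hval1 j hj)
      · exact Or.inl (hval0 j h hj)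
  refine ⟨e1, ?_, ?_⟩
  · funext j
    rw [base, e1]
    by_cases hj : j ∈ A
    · rw [if_pos hj, hβ, base, ← hA, if_pos hj]
    · rw [if_neg hj, hval j hj, hβ, base, ← hA, if_neg hj]
  · ext j
    rw [upp, Finset.mem_filter]
    constructor
    · rintro ⟨h1, h2⟩
      by_contra hj
      by_cases hjA : j ∈ A
      · rw [hval0 j hjA hj] at h2
        exact hne j h1 h2
      · rw [hval j hjA] at h2
        exact hjA (Finset.mem_filter.2 ⟨h1, Or.inr h2⟩)
    · intro hj
      exact ⟨hAT j (hU hj), hval1 j hj⟩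

variable (δ : ∀ j, P j → ℤ)

/-- the sum of a word -/
def tot (g : ∀ j, P j) : ℤ := ∑ j, δ j (g j)

/-- The words with sum in a short window. -/
theorem count_le {c : ℤ} (hc : 1 ≤ c) (hδ : ∀ j ∈ T, δ j (i0 j) + c ≤ δ j (i1 j)) (s : ℤ) :
    ((Finset.univ.filter fun g : ∀ j, P j => s ≤ tot δ g ∧ tot δ g < s + c).card : ℝ) ≤
      ∑ g : ∀ j, P j, √(1 / (((act T i0 i1 g).card : ℝ) + 1)) := by
  classical
  have hne : ∀ j ∈ T, i0 j ≠ i1 j := by
    intro j hj h
    have := hδ j hj
    rw [h] at this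
    omega
  set cls : (∀ j, P j) → Finset (Fin n) × (∀ j, P j) :=
    fun g => (act T i0 i1 g, base T i0 i1 g) with hcls
  set G := Finset.univ.filter fun g : ∀ j, P j => s ≤ tot δ g ∧ tot δ g < s + c with hG
  have h1 : (G.card : ℝ) = ∑ κ ∈ Finset.univ.image cls, ((G.filter fun g => cls g = κ).card : ℝ) := by
    have := Finset.card_eq_sum_card_fiberwise (s := G) (t := Finset.univ.image cls) (f := cls)
      (fun g _ => Finset.mem_coe.2 (Finset.mem_image_of_mem _ (Finset.mem_univ _)))
    exact_mod_cast this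
  have h2 : ∑ g : ∀ j, P j, √(1 / (((act T i0 i1 g).card : ℝ) + 1)) =
      ∑ κ ∈ Finset.univ.image cls, ∑ g ∈ Finset.univ.filter fun g => cls g = κ,
        √(1 / (((act T i0 i1 g).card : ℝ) + 1)) :=
    (Finset.sum_fiberwise_of_maps_to (fun g _ => Finset.mem_image_of_mem _ (Finset.mem_univ _))
      _).symm
  rw [h1, h2]
  refine Finset.sum_le_sum fun κ hκ => ?_
  obtain ⟨g0, -, rfl⟩ := Finset.mem_image.1 hκ
  set A := act T i0 i1 g0 with hA
  set β := base T i0 i1 g0 with hβ
  have hmem : ∀ g, cls g = cls g0 → act T i0 i1 g = A ∧ base T i0 i1 g = β := fun g hg =>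
    ⟨congrArg Prod.fst hg, congrArg Prod.snd hg⟩
  have hrec : ∀ g, cls g = cls g0 → wrd i0 i1 A β (upp T i1 g) = g := by
    intro g hg
    obtain ⟨h3, h4⟩ := hmem g hg
    have := wrd_of T i0 i1 g
    rwa [h3, h4] at this
  -- the size of the class
  have hcard : (2 : ℝ) ^ A.card ≤ ((Finset.univ.filter fun g => cls g = cls g0).card : ℝ) := by
    have h3 : (A.powerset).card ≤ (Finset.univ.filter fun g => cls g = cls g0).card := by
      apply Finset.card_le_card_of_injOn (fun U => wrd i0 i1 A β U)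
      · intro U hU
        have hU' : U ⊆ A := Finset.mem_powerset.1 hU
        obtain ⟨h4, h5, -⟩ := wrd_spec T i0 i1 hne g0 hU'
        exact Finset.mem_coe.2 (Finset.mem_filter.2 ⟨Finset.mem_univ _, Prod.ext h4 h5⟩)
      · intro U hU V hV h
        obtain ⟨-, -, h4⟩ := wrd_spec T i0 i1 hne g0 (Finset.mem_powerset.1 hU)
        obtain ⟨-, -, h5⟩ := wrd_spec T i0 i1 hne g0 (Finset.mem_powerset.1 hV)
        have h' : wrd i0 i1 A β U = wrd i0 i1 A β V := h
        rw [← h4, ← h5]
        exact congrArg (upp T i1) h'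
    rw [Finset.card_powerset] at h3
    exact_mod_cast h3
  -- the good words of the class
  have hgood : ((G.filter fun g => cls g = cls g0).card : ℝ) ≤ (A.card.choose (A.card / 2) : ℝ) := by
    have h3 : ((G.filter fun g => cls g = cls g0).image (upp T i1)).card =
        (G.filter fun g => cls g = cls g0).card := by
      apply Finset.card_image_of_injOn
      intro g hg g' hg' h
      rw [← hrec g (Finset.mem_filter.1 hg).2, ← hrec g' (Finset.mem_filter.1 hg').2]
      exact congrArg (wrd i0 i1 A β) h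
    rw [← h3]
    have h4 := sperner_on A ((G.filter fun g => cls g = cls g0).image (upp T i1)) ?_ ?_
    · exact_mod_cast h4
    · intro U hU
      obtain ⟨g, hg, rfl⟩ := Finset.mem_image.1 hU
      obtain ⟨h5, -⟩ := hmem g (Finset.mem_filter.1 hg).2
      rw [← h5]
      intro j hj
      have := Finset.mem_filter.1 hj
      exact Finset.mem_filter.2 ⟨this.1, Or.inr this.2⟩
    · intro U hU V hV hsub
      obtain ⟨g, hg, rfl⟩ := Finset.mem_image.1 hU
      obtain ⟨g', hg', rfl⟩ := Finset.mem_image.1 hV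
      have hg1 := (Finset.mem_filter.1 (Finset.mem_filter.1 hg).1).2
      have hg2 := (Finset.mem_filter.1 (Finset.mem_filter.1 hg').1).2
      by_contra hcon
      obtain ⟨j0, hj0, hj0'⟩ := Finset.exists_of_ssubset (hsub.ssubset_of_ne hcon)
      obtain ⟨a1, a2⟩ := hmem g (Finset.mem_filter.1 hg).2
      obtain ⟨b1, b2⟩ := hmem g' (Finset.mem_filter.1 hg').2
      -- values at the single positions
      have hval : ∀ j, δ j (g j) ≤ δ j (g' j) := by
        intro j
        by_cases h6 : j ∈ upp T i1 g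
        · have e1 := (Finset.mem_filter.1 h6).2
          have e2 := (Finset.mem_filter.1 (hsub h6)).2
          rw [e1, e2]
        · by_cases h7 : j ∈ A
          · have h8 : g j = i0 j := by
              have h9 := Finset.mem_filter.1 (a1 ▸ h7 : j ∈ act T i0 i1 g)
              rcases h9.2 with h10 | h10
              · exact h10
              · exact absurd (Finset.mem_filter.2 ⟨h9.1, h10⟩) h6
            have h9 := Finset.mem_filter.1 (b1 ▸ h7 : j ∈ act T i0 i1 g')
            have h11 := hδ j h9.1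
            rw [h8]
            rcases h9.2 with h10 | h10
            · rw [h10]
            · rw [h10]
              omega
          · have e1 : g j = β j := by
              rw [← a2, base, a1, if_neg h7]
            have e2 : g' j = β j := by
              rw [← b2, base, b1, if_neg h7]
            rw [e1, e2]
      have hj0A : j0 ∈ A := by
        have := Finset.mem_filter.1 hj0
        rw [← b1]
        exact Finset.mem_filter.2 ⟨this.1, Or.inr this.2⟩
      have h8 : g j0 = i0 j0 := by
        have h9 := Finset.mem_filter.1 (a1 ▸ hj0A : j0 ∈ act T i0 i1 g)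
        rcases h9.2 with h10 | h10
        · exact h10
        · exact absurd (Finset.mem_filter.2 ⟨h9.1, h10⟩) hj0'
      have h9 : δ j0 (g j0) + c ≤ δ j0 (g' j0) := by
        rw [h8, (Finset.mem_filter.1 hj0).2]
        exact hδ j0 (Finset.mem_filter.1 hj0).1
      have h10 : tot δ g + c ≤ tot δ g' := by
        have h11 : ∀ j, δ j (g j) + (if j = j0 then c else 0) ≤ δ j (g' j) := by
          intro j
          by_cases h12 : j = j0
          · subst h12
            rw [if_pos rfl]
            exact h9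
          · rw [if_neg h12, add_zero]
            exact hval j
        have h12 := Finset.sum_le_sum fun j (_ : j ∈ Finset.univ) => h11 j
        rw [Finset.sum_add_distrib, Finset.sum_ite_eq' Finset.univ j0, if_pos (Finset.mem_univ _)]
          at h12
        exact h12
      omega
  -- conclusion
  have hsum : ∑ g ∈ Finset.univ.filter fun g => cls g = cls g0,
      √(1 / (((act T i0 i1 g).card : ℝ) + 1)) =
      ((Finset.univ.filter fun g => cls g = cls g0).card : ℝ) * √(1 / ((A.card : ℝ) + 1)) := by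
    rw [← nsmul_eq_mul, ← Finset.sum_const]
    refine Finset.sum_congr rfl fun g hg => ?_
    rw [(hmem g (Finset.mem_filter.1 hg).2).1]
  rw [hsum]
  refine hgood.trans ((choose_real _).trans ?_)
  exact mul_le_mul_of_nonneg_right hcard (Real.sqrt_nonneg _)

theorem integral_bound (k : ℕ) {b : ℝ} (hb : 0 < b) (hb2 : 2 ≤ b) :
    ∫ x in (0 : ℝ)..1, (1 - 2 / b * (1 - x)) ^ k ≤ b / (2 * ((k : ℝ) + 1)) := by
  have hk : ((k : ℝ) + 1) ≠ 0 := by positivity
  have h1 : ∀ x ∈ Set.uIcc (0 : ℝ) 1, HasDerivAt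
      (fun x : ℝ => b / (2 * ((k : ℝ) + 1)) * (1 - 2 / b * (1 - x)) ^ (k + 1))
      ((1 - 2 / b * (1 - x)) ^ k) x := by
    intro x _
    have h2 : HasDerivAt (fun x : ℝ => 1 - 2 / b * (1 - x)) (2 / b) x := by
      have h3 : HasDerivAt (fun x : ℝ => 1 - x) (-1) x := by
        simpa using (hasDerivAt_id x).const_sub 1
      exact ((h3.const_mul (2 / b)).const_sub 1).congr_deriv (by ring)
    have h5 : HasDerivAt (fun x : ℝ => b / (2 * ((k : ℝ) + 1)) * (1 - 2 / b * (1 - x)) ^ (k + 1))
        (b / (2 * ((k : ℝ) + 1)) * (((k + 1 : ℕ) : ℝ) * (1 - 2 / b * (1 - x)) ^ (k + 1 - 1) *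
          (2 / b))) x := (h2.pow (k + 1)).const_mul _
    refine h5.congr_deriv ?_
    rw [Nat.add_sub_cancel]
    push_cast
    field_simp
  rw [intervalIntegral.integral_eq_sub_of_hasDerivAt h1 (by
    apply Continuous.intervalIntegrable
    fun_prop)]
  have h3 : (0 : ℝ) ≤ (1 - 2 / b * (1 - 0)) ^ (k + 1) := by
    apply pow_nonneg
    rw [sub_zero, mul_one, sub_nonneg, div_le_one hb]
    exact hb2
  have h4 : (0 : ℝ) ≤ b / (2 * ((k : ℝ) + 1)) := by positivity
  have h5 := mul_nonneg h4 h3
  simp only [sub_self, mul_zero, sub_zero, one_pow, mul_one] at h5 ⊢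
  linarith

theorem sum_inv_le {b : ℝ} (hne : ∀ j ∈ T, i0 j ≠ i1 j) (hT : T.Nonempty)
    (hb : ∀ j ∈ T, (Fintype.card (P j) : ℝ) ≤ b) :
    ∑ g : ∀ j, P j, 1 / (((act T i0 i1 g).card : ℝ) + 1) ≤
      b / (2 * ((T.card : ℝ) + 1)) * ∏ j, (Fintype.card (P j) : ℝ) := by
  classical
  have h2 : ∀ j ∈ T, 2 ≤ Fintype.card (P j) := by
    intro j hj
    have : ({i0 j, i1 j} : Finset (P j)).card ≤ Fintype.card (P j) := Finset.card_le_univ _
    rwa [Finset.card_pair (hne j hj)] at this
  have hb2 : 2 ≤ b := by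
    obtain ⟨j, hj⟩ := hT
    have h3 := hb j hj
    have h4 : ((2 : ℕ) : ℝ) ≤ (Fintype.card (P j) : ℝ) := by exact_mod_cast h2 j hj
    push_cast at h4
    linarith
  have hb0 : 0 < b := by linarith
  have hint : ∀ m : ℕ, 1 / ((m : ℝ) + 1) = ∫ x in (0 : ℝ)..1, x ^ m := by
    intro m
    rw [integral_pow]
    simp
  have h1 : ∑ g : ∀ j, P j, 1 / (((act T i0 i1 g).card : ℝ) + 1) =
      ∫ x in (0 : ℝ)..1, ∑ g : ∀ j, P j, x ^ (act T i0 i1 g).card := by
    rw [intervalIntegral.integral_finsetSum]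
    · exact Finset.sum_congr rfl fun g _ => hint _
    · intro g _
      apply Continuous.intervalIntegrable
      fun_prop
  have h3 : ∀ x : ℝ, ∑ g : ∀ j, P j, x ^ (act T i0 i1 g).card =
      ∏ j, ∑ i : P j, if j ∈ T ∧ (i = i0 j ∨ i = i1 j) then x else 1 := by
    intro x
    rw [Finset.prod_univ_sum, Fintype.piFinset_univ]
    refine Finset.sum_congr rfl fun g _ => ?_
    have : act T i0 i1 g = Finset.univ.filter fun j => j ∈ T ∧ (g j = i0 j ∨ g j = i1 j) := by
      ext j
      simp [act]
    rw [this, Finset.prod_ite]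
    simp
  have h4 : ∀ x : ℝ, ∀ j, ∑ i : P j, (if j ∈ T ∧ (i = i0 j ∨ i = i1 j) then x else 1) =
      if j ∈ T then (Fintype.card (P j) : ℝ) - 2 * (1 - x) else (Fintype.card (P j) : ℝ) := by
    intro x j
    by_cases hj : j ∈ T
    · rw [if_pos hj]
      have e1 : ∀ i : P j, (if j ∈ T ∧ (i = i0 j ∨ i = i1 j) then x else 1) =
          1 - (if i ∈ ({i0 j, i1 j} : Finset (P j)) then (1 - x) else 0) := by
        intro i
        by_cases h : i = i0 j ∨ i = i1 j
        · have h' : i ∈ ({i0 j, i1 j} : Finset (P j)) := by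
            rw [Finset.mem_insert, Finset.mem_singleton]
            exact h
          rw [if_pos ⟨hj, h⟩, if_pos h']
          ring
        · have h' : i ∉ ({i0 j, i1 j} : Finset (P j)) := by
            rw [Finset.mem_insert, Finset.mem_singleton]
            exact h
          rw [if_neg (fun h5 => h h5.2), if_neg h']
          ring
      rw [Finset.sum_congr rfl fun i _ => e1 i, Finset.sum_sub_distrib, Finset.sum_const,
        Finset.sum_ite_mem, Finset.univ_inter, Finset.sum_const, Finset.card_pair (hne j hj)]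
      simp
    · rw [if_neg hj]
      rw [Finset.sum_congr rfl fun i _ => if_neg (fun h5 => hj h5.1)]
      simp
  rw [h1]
  have h5 : ∫ x in (0 : ℝ)..1, ∑ g : ∀ j, P j, x ^ (act T i0 i1 g).card ≤
      ∫ x in (0 : ℝ)..1, (∏ j, (Fintype.card (P j) : ℝ)) * (1 - 2 / b * (1 - x)) ^ T.card := by
    apply intervalIntegral.integral_mono_on (by norm_num)
    · apply Continuous.intervalIntegrable
      fun_prop
    · apply Continuous.intervalIntegrable
      fun_prop
    · intro x hx
      rw [h3, Finset.prod_congr rfl fun j _ => h4 x j]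
      have hx1 : 0 ≤ 1 - x := by linarith [hx.2]
      have hx2 : 1 - x ≤ 1 := by linarith [hx.1]
      have h6 : ∀ j : Fin n, (if j ∈ T then (Fintype.card (P j) : ℝ) - 2 * (1 - x) else
          (Fintype.card (P j) : ℝ)) ≤ (Fintype.card (P j) : ℝ) *
            (if j ∈ T then (1 - 2 / b * (1 - x)) else 1) := by
        intro j
        by_cases hj : j ∈ T
        · rw [if_pos hj, if_pos hj]
          have h7 := hb j hj
          have h8 : (Fintype.card (P j) : ℝ) * (2 / b * (1 - x)) ≤ 2 * (1 - x) := by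
            have h9 : (Fintype.card (P j) : ℝ) * (2 / b) ≤ 2 := by
              rw [mul_div_assoc', div_le_iff₀ hb0]
              linarith
            calc (Fintype.card (P j) : ℝ) * (2 / b * (1 - x))
                = (Fintype.card (P j) : ℝ) * (2 / b) * (1 - x) := by ring
              _ ≤ 2 * (1 - x) := mul_le_mul_of_nonneg_right h9 hx1
          nlinarith
        · rw [if_neg hj, if_neg hj, mul_one]
      have h7 : ∏ j, (if j ∈ T then (Fintype.card (P j) : ℝ) - 2 * (1 - x) else
          (Fintype.card (P j) : ℝ)) ≤ ∏ j, ((Fintype.card (P j) : ℝ) *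
            (if j ∈ T then (1 - 2 / b * (1 - x)) else 1)) := by
        apply Finset.prod_le_prod
        · intro j _
          by_cases hj : j ∈ T
          · rw [if_pos hj]
            have h8 : ((2 : ℕ) : ℝ) ≤ (Fintype.card (P j) : ℝ) := by exact_mod_cast h2 j hj
            push_cast at h8
            linarith
          · rw [if_neg hj]
            positivity
        · exact fun j _ => h6 j
      refine h7.trans (le_of_eq ?_)
      rw [Finset.prod_mul_distrib, Finset.prod_ite_mem, Finset.univ_inter, Finset.prod_const]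
  refine h5.trans ?_
  rw [intervalIntegral.integral_const_mul, mul_comm]
  exact mul_le_mul_of_nonneg_right (integral_bound _ hb0 hb2) (by positivity)

/-- **The Littlewood–Offord bound.** -/
theorem littlewood_offord {b : ℝ} {c : ℤ} (hc : 1 ≤ c)
    (hδ : ∀ j ∈ T, δ j (i0 j) + c ≤ δ j (i1 j)) (hT : T.Nonempty)
    (hb : ∀ j ∈ T, (Fintype.card (P j) : ℝ) ≤ b) (s : ℤ) :
    ((Finset.univ.filter fun g : ∀ j, P j => s ≤ tot δ g ∧ tot δ g < s + c).card : ℝ) ≤
      √(b / (2 * ((T.card : ℝ) + 1))) * ∏ j, (Fintype.card (P j) : ℝ) := by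
  have hne : ∀ j ∈ T, i0 j ≠ i1 j := by
    intro j hj h
    have := hδ j hj
    rw [h] at this
    omega
  refine (count_le T i0 i1 δ hc hδ s).trans ?_
  have h1 := Real.sum_sqrt_mul_sqrt_le (Finset.univ : Finset (∀ j, P j))
    (f := fun _ => (1 : ℝ)) (g := fun g => 1 / (((act T i0 i1 g).card : ℝ) + 1))
    (fun _ => by positivity) (fun _ => by positivity)
  simp only [Real.sqrt_one, one_mul] at h1
  refine h1.trans ?_
  have h2 : ∑ _g : ∀ j, P j, (1 : ℝ) = ∏ j, (Fintype.card (P j) : ℝ) := by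
    rw [Finset.sum_const, Finset.card_univ, Fintype.card_pi, nsmul_eq_mul, mul_one, Nat.cast_prod]
  rw [h2]
  have h3 := Real.sqrt_le_sqrt (sum_inv_le T i0 i1 hne hT hb)
  have h4 : (0 : ℝ) ≤ ∏ j, (Fintype.card (P j) : ℝ) := by positivity
  have hb0 : 0 ≤ b := by
    obtain ⟨j, hj⟩ := hT
    exact le_trans (by positivity) (hb j hj)
  rw [Real.sqrt_mul (by positivity)] at h3
  calc √(∏ j, (Fintype.card (P j) : ℝ)) *
        √(∑ g : ∀ j, P j, 1 / (((act T i0 i1 g).card : ℝ) + 1))
      ≤ √(∏ j, (Fintype.card (P j) : ℝ)) *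
        (√(b / (2 * ((T.card : ℝ) + 1))) * √(∏ j, (Fintype.card (P j) : ℝ))) :=
        mul_le_mul_of_nonneg_left h3 (Real.sqrt_nonneg _)
    _ = √(b / (2 * ((T.card : ℝ) + 1))) *
        (√(∏ j, (Fintype.card (P j) : ℝ)) * √(∏ j, (Fintype.card (P j) : ℝ))) := by ring
    _ = √(b / (2 * ((T.card : ℝ) + 1))) * ∏ j, (Fintype.card (P j) : ℝ) := by
        rw [Real.mul_self_sqrt h4]

end main

end Pool.Agent.Q60.LO
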