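import Pool.Agent.Q60.LO.Comb
import Pool.Agent.Q60.SS.Surf

/-!
# Jordan blocks on tensor products of different spaces
-/

set_option autoImplicit false

open Module TensorProduct

namespace Pool.Agent.Q60.LO

open Pool.Agent.Q60.SS Pool.Agent.H914

universe u v w

/-- the tensor product `A 0 ⊗ ... ⊗ A n` of spaces with operators -/
noncomputable def tensors {Ω : Type w} [Field Ω] :
    (n : ℕ) → (Fin (n + 1) → Op.{v, w} Ω) → Op.{v, w} Ω
  | 0, A => A 0
  | n + 1, A => (A 0).tensor (tensors n fun i => A i.succ)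

section

variable {Ω : Type w} [Field Ω] [CharZero Ω]

theorem jadp_tensors : ∀ (n : ℕ) (A : Fin (n + 1) → Op.{v, w} Ω) (P : Fin (n + 1) → Type)
    (α : ∀ j, P j → Ω) (a : ∀ j, P j → ℤ) (m : ∀ j, P j → ℕ),
    (∀ j, JAdp ((A j).coh 0) (α j) (a j) (m j)) →
    JAdp ((tensors n A).coh 0) (fun g : ∀ j, P j => ∏ j, α j (g j))
      (fun g : ∀ j, P j => ∑ j, a j (g j)) (fun g : ∀ j, P j => ∑ j, m j (g j)) := by
  intro n
  induction n with
  | zero =>
    intro A P α a m H
    have H' : JAdp ((tensors 0 A).coh 0) (α 0) (a 0) (m 0) := H 0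
    have hu : Unique (Fin (0 + 1)) := inferInstanceAs (Unique (Fin 1))
    let E : (∀ j, P j) ≃ P 0 :=
      { toFun := fun g => g 0
        invFun := fun p j => (Subsingleton.elim 0 j : (0 : Fin (0 + 1)) = j) ▸ p
        left_inv := fun g => by
          funext j
          have : (0 : Fin (0 + 1)) = j := Subsingleton.elim 0 j
          subst this
          rfl
        right_inv := fun p => rfl }
    refine H'.reindex E.symm _ _ _ (fun g => ?_) (fun g => ?_) (fun g => ?_)
    · rw [Fin.prod_univ_succ]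
      simp
      rfl
    · rw [Fin.sum_univ_succ]
      simp
      rfl
    · rw [Fin.sum_univ_succ]
      simp
      rfl
  | succ n ih =>
    intro A P α a m H
    have hκ := Op.coh_kunneth (A 0) (tensors n fun i => A i.succ) 0 0
    have h1 := (H 0).prod (ih (fun i => A i.succ) (fun j => P j.succ) (fun j => α j.succ)
      (fun j => a j.succ) (fun j => m j.succ) fun j => H j.succ) hκ
    refine h1.reindex (Fin.consEquiv P) _ _ _ (fun g => ?_) (fun g => ?_) (fun g => ?_)
    · rw [Fin.prod_univ_succ]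
      rfl
    · rw [Fin.sum_univ_succ]
      rfl
    · rw [Fin.sum_univ_succ]
      rfl

variable [IsAlgClosed Ω]

/-- Adapted bases of the factors. -/
theorem exists_strings_op {A : Op.{v, w} Ω} (h1 : Module.Finite Ω A.V)
    (h2 : Function.Injective A.F) : ∃ (I : Type) (_ : Fintype I) (α : I → Ω) (a : I → ℤ)
      (m : I → ℕ), JAdp (A.coh 0) α a m ∧ finrank Ω A.V = Fintype.card I ∧
      (Semisimple A.F → ∀ i, a i = 0) ∧ (¬ Semisimple A.F → ∃ i i', a i' + 2 = a i) := by
  have hR := Op.coh_isFCoh h1 h2 0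
  have := hR.finite
  obtain ⟨ι, hι, len, αs, ms, B, S, N, e, h, HJ, hB⟩ := exists_J hR.isInternal hR.F_gr hR.inj
  have hss : Semisimple A.F ↔ ∀ s, len s = 0 := by
    have := HJ.semisimple_iff
    rw [show (A.coh 0).F = A.F from rfl] at this
    rw [this]
    exact sw_zero_one_iff len
  refine ⟨Σ s : ι, Fin (len s + 1), inferInstance, fun p => αs p.1, sw len, fun p => ms p.1,
    ⟨B, S, N, e, h, HJ, hB⟩, finrank_eq_card_basis B, fun h0 p => ?_, fun h0 => ?_⟩
  · rw [hss] at h0
    unfold sw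
    have h1 := p.2.2
    have h2 := h0 p.1
    omega
  · have hex : ∃ s, 1 ≤ len s := by
      by_contra hcon
      push Not at hcon
      exact h0 (hss.2 fun s => by have := hcon s; omega)
    obtain ⟨s, hs⟩ := hex
    refine ⟨⟨s, ⟨0, by omega⟩⟩, ⟨s, ⟨1, by omega⟩⟩, ?_⟩
    unfold sw
    simp

/-- **The Littlewood–Offord law for Jordan blocks.** -/
theorem tensors_law (n : ℕ) (A : Fin (n + 1) → Op.{v, w} Ω)
    (h1 : ∀ i, Module.Finite Ω (A i).V) (h2 : ∀ i, Function.Injective (A i).F) :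
    ((∀ i, Semisimple (A i).F) → Semisimple (tensors n A).F) ∧
    (∀ (F : Finset (Fin (n + 1))) (b : ℝ), F.Nonempty → (∀ i ∈ F, ¬ Semisimple (A i).F) →
      (∀ i ∈ F, (finrank Ω (A i).V : ℝ) ≤ b) → (blocks (tensors n A).F 0 : ℝ) ≤
        √(b / (2 * ((F.card : ℝ) + 1))) * ∏ i, (finrank Ω (A i).V : ℝ)) := by
  classical
  choose P hP α a m hJ hdim hs hns using fun i => exists_strings_op (h1 i) (h2 i)
  obtain ⟨B, S, N, e, h, HJ, -⟩ := jadp_tensors n A P α a m hJ
  refine ⟨fun hall => ?_, fun F b hF hfail hb => ?_⟩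
  · have h3 := HJ.semisimple_iff
    rw [show ((tensors n A).coh 0).F = (tensors n A).F from rfl] at h3
    rw [h3]
    intro g
    left
    exact Finset.sum_eq_zero fun j _ => hs j (hall j) (g j)
  · have h3 := HJ.blocks_eq 0
    rw [show ((tensors n A).coh 0).F = (tensors n A).F from rfl] at h3
    have h4 : Nat.card {g : ∀ j, P j // -((0 : ℕ) : ℤ) < ∑ j, a j (g j) ∧
        ∑ j, a j (g j) ≤ ((0 : ℕ) : ℤ)} = 0 := by
      have : IsEmpty {g : ∀ j, P j // -((0 : ℕ) : ℤ) < ∑ j, a j (g j) ∧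
        ∑ j, a j (g j) ≤ ((0 : ℕ) : ℤ)} := ⟨fun g => by
          have := g.2
          omega⟩
      exact Nat.card_of_isEmpty
    rw [h4] at h3
    rw [h3]
    have hd : ∀ i, (finrank Ω (A i).V : ℝ) = (Fintype.card (P i) : ℝ) := fun i => by rw [hdim i]
    by_cases hne : ∃ i, IsEmpty (P i)
    · obtain ⟨i, hi⟩ := hne
      have h5 : IsEmpty {g : ∀ j, P j // -(((0 : ℕ) + 1 : ℕ) : ℤ) < ∑ j, a j (g j) ∧
          ∑ j, a j (g j) ≤ (((0 : ℕ) + 1 : ℕ) : ℤ)} := ⟨fun g => hi.elim (g.1 i)⟩
      rw [Nat.card_of_isEmpty]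
      simp only [Nat.cast_zero, sub_zero, Int.cast_zero]
      positivity
    push Not at hne
    have hex : ∀ i, ∃ p p' : P i, i ∈ F → a i p + 2 ≤ a i p' := by
      intro i
      by_cases hi : i ∈ F
      · obtain ⟨p, p', hp⟩ := hns i (hfail i hi)
        exact ⟨p', p, fun _ => by omega⟩
      · obtain ⟨p⟩ := hne i
        exact ⟨p, p, fun h => absurd h hi⟩
    choose i0 i1 hi using hex
    have hLO := littlewood_offord F i0 i1 a (b := b) (c := 2)
      (by norm_num) hi hF (fun j hj => by rw [← hd]; exact hb j hj) 0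
    rw [Finset.prod_congr rfl fun i _ => hd i]
    refine le_trans (le_of_eq ?_) hLO
    rw [Nat.card_eq_fintype_card, Fintype.card_subtype, Nat.cast_zero, sub_zero, Int.cast_natCast]
    refine congrArg (fun m : ℕ => (m : ℝ)) (congrArg Finset.card
      (Finset.filter_congr fun g _ => ?_))
    unfold tot
    constructor
    · rintro ⟨h5, h6⟩
      constructor <;> omega
    · rintro ⟨h5, h6⟩
      constructor <;> omega

end

end Pool.Agent.Q60.LO
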